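import Mathlib

/-!
# The gcd condition implies levelness of lecture hall simplices

For `s = (s_1, …, s_n)` we index by `Fin (n + 1)`, so the number of coordinates is `n + 1 ≥ 1`.
-/

namespace Pool.Agent.Results.MP_aff17b_co.LectureHallLevel

open Set Filter Topology

/-- The `s`-lecture hall simplex
`{x : 0 ≤ x_1 / s_1 ≤ x_2 / s_2 ≤ ⋯ ≤ x_{n+1} / s_{n+1} ≤ 1}`. -/
def lectureHallSimplex {n : ℕ} (s : Fin (n + 1) → ℕ) : Set (Fin (n + 1) → ℝ) :=
  {x | 0 ≤ x 0 / (s 0 : ℝ) ∧
    (∀ j : Fin n, x j.castSucc / (s j.castSucc : ℝ) ≤ x j.succ / (s j.succ : ℝ)) ∧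
    x (Fin.last n) / (s (Fin.last n) : ℝ) ≤ 1}

/-- The cone `C_P = {(t x, t) : x ∈ P, t ≥ 0}` over `P × {1}`. -/
def coneOver {ι : Type} (P : Set (ι → ℝ)) : Set ((ι → ℝ) × ℝ) :=
  {p | ∃ x ∈ P, ∃ t : ℝ, 0 ≤ t ∧ p = (t • x, t)}

/-- The point of `ℝ^ι × ℝ` with integer coordinates `z` and integer height `h`. -/
def latticePoint {ι : Type} (z : ι → ℤ) (h : ℤ) : (ι → ℝ) × ℝ :=
  (fun i => (z i : ℝ), (h : ℝ))

/-- A polytope `P` is level: there is a least height `d₀` of a lattice point in the (topological)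
interior of the cone `C_P` over `P × {1}`, and every lattice point in the interior of `C_P` is the
sum of a lattice point in the interior of `C_P` of height `d₀` and a lattice point of `C_P`. -/
def IsLevel {ι : Type} (P : Set (ι → ℝ)) : Prop :=
  ∃ d₀ : ℤ,
    IsLeast {h : ℤ | ∃ z : ι → ℤ, latticePoint z h ∈ interior (coneOver P)} d₀ ∧
    ∀ (z : ι → ℤ) (h : ℤ), latticePoint z h ∈ interior (coneOver P) →
      ∃ (u : ι → ℤ) (v : ι → ℤ) (k : ℤ),
        latticePoint u d₀ ∈ interior (coneOver P) ∧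
        latticePoint v k ∈ coneOver P ∧
        latticePoint z h = latticePoint u d₀ + latticePoint v k

/-- The set of `(x, h)` satisfying the homogeneous inequalities. -/
def hcone {n : ℕ} (s : Fin (n + 1) → ℕ) : Set ((Fin (n + 1) → ℝ) × ℝ) :=
  {p | 0 ≤ p.1 0 / (s 0 : ℝ) ∧
    (∀ j : Fin n, p.1 j.castSucc / (s j.castSucc : ℝ) ≤ p.1 j.succ / (s j.succ : ℝ)) ∧
    p.1 (Fin.last n) / (s (Fin.last n) : ℝ) ≤ p.2}

/-- The set of `(x, h)` satisfying the strict homogeneous inequalities. -/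
def hconeInt {n : ℕ} (s : Fin (n + 1) → ℕ) : Set ((Fin (n + 1) → ℝ) × ℝ) :=
  {p | 0 < p.1 0 / (s 0 : ℝ) ∧
    (∀ j : Fin n, p.1 j.castSucc / (s j.castSucc : ℝ) < p.1 j.succ / (s j.succ : ℝ)) ∧
    p.1 (Fin.last n) / (s (Fin.last n) : ℝ) < p.2}

lemma chain_nonneg {n : ℕ} {f : Fin (n + 1) → ℝ} (h0 : 0 ≤ f 0)
    (h : ∀ j : Fin n, f j.castSucc ≤ f j.succ) (i : Fin (n + 1)) : 0 ≤ f i := by
  induction i using Fin.induction with
  | zero => exact h0
  | succ j ih => exact le_trans ih (h j)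

lemma chain_le_last {n : ℕ} {f : Fin (n + 1) → ℝ}
    (h : ∀ j : Fin n, f j.castSucc ≤ f j.succ) (i : Fin (n + 1)) : f i ≤ f (Fin.last n) := by
  have hm : Monotone f := Fin.monotone_iff_le_succ.2 h
  exact hm (Fin.le_last i)

lemma coneOver_eq {n : ℕ} (s : Fin (n + 1) → ℕ) (hs : ∀ i, 1 ≤ s i) :
    coneOver (lectureHallSimplex s) = hcone s := by
  have hspos : ∀ i, (0 : ℝ) < (s i : ℝ) := fun i => by
    have := hs i
    exact_mod_cast this
  ext p
  constructor
  · rintro ⟨x, ⟨h0, h1, h2⟩, t, ht, rfl⟩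
    refine ⟨?_, ?_, ?_⟩
    · simp only [Pi.smul_apply, smul_eq_mul]
      rw [mul_div_assoc]
      exact mul_nonneg ht h0
    · intro j
      simp only [Pi.smul_apply, smul_eq_mul]
      rw [mul_div_assoc, mul_div_assoc]
      exact mul_le_mul_of_nonneg_left (h1 j) ht
    · simp only [Pi.smul_apply, smul_eq_mul]
      rw [mul_div_assoc]
      calc t * (x (Fin.last n) / (s (Fin.last n) : ℝ)) ≤ t * 1 :=
            mul_le_mul_of_nonneg_left h2 ht
        _ = t := mul_one t
  · rintro ⟨h0, h1, h2⟩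
    have hnn : ∀ i, 0 ≤ p.1 i / (s i : ℝ) :=
      chain_nonneg (f := fun i => p.1 i / (s i : ℝ)) h0 h1
    have hll : ∀ i, p.1 i / (s i : ℝ) ≤ p.2 := fun i =>
      le_trans (chain_le_last (f := fun i => p.1 i / (s i : ℝ)) h1 i) h2
    have ht : 0 ≤ p.2 := le_trans (hnn 0) (hll 0)
    rcases ht.eq_or_lt with ht0 | htpos
    · refine ⟨0, ⟨by simp, by intro j; simp, by simp⟩, 0, le_refl _, ?_⟩
      have hz : p.1 = 0 := by
        ext i
        have h1 := hnn i
        have h2 := hll i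
        rw [← ht0] at h2
        have h3 : p.1 i / (s i : ℝ) = 0 := le_antisymm h2 h1
        rcases div_eq_zero_iff.1 h3 with h4 | h4
        · simpa using h4
        · exact absurd h4 (hspos i).ne'
      ext i
      · simp [hz]
      · simp [← ht0]
    · refine ⟨fun i => p.1 i / p.2, ⟨?_, ?_, ?_⟩, p.2, ht, ?_⟩
      · change 0 ≤ p.1 0 / p.2 / (s 0 : ℝ)
        rw [div_right_comm]
        exact div_nonneg h0 ht
      · intro j
        change p.1 j.castSucc / p.2 / (s j.castSucc : ℝ) ≤ p.1 j.succ / p.2 / (s j.succ : ℝ)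
        rw [div_right_comm, div_right_comm (p.1 j.succ)]
        exact div_le_div_of_nonneg_right (h1 j) ht
      · change p.1 (Fin.last n) / p.2 / (s (Fin.last n) : ℝ) ≤ 1
        rw [div_right_comm]
        exact (div_le_one htpos).2 h2
      · ext i
        · simp only [Pi.smul_apply, smul_eq_mul]
          field_simp
        · rfl

lemma interior_hcone {n : ℕ} (s : Fin (n + 1) → ℕ) (hs : ∀ i, 1 ≤ s i) :
    interior (hcone s) = hconeInt s := by
  have hspos : ∀ i, (0 : ℝ) < (s i : ℝ) := fun i => by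
    have := hs i
    exact_mod_cast this
  apply Subset.antisymm
  · intro p hp
    -- a direction in which all defining functionals are positive
    let e : (Fin (n + 1) → ℝ) × ℝ := (fun i => (s i : ℝ) * ((i : ℕ) + 1 : ℝ), (n : ℝ) + 2)
    have hcont : Tendsto (fun ε : ℝ => p - ε • e) (𝓝[>] 0) (𝓝 p) := by
      have h1 : Tendsto (fun ε : ℝ => p - ε • e) (𝓝 0) (𝓝 (p - (0 : ℝ) • e)) := by
        apply Continuous.tendsto
        fun_prop
      rw [zero_smul, sub_zero] at h1
      exact h1.mono_left nhdsWithin_le_nhds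
    have hmem : hcone s ∈ 𝓝 p := mem_interior_iff_mem_nhds.1 hp
    have hev : ∀ᶠ ε in 𝓝[>] (0 : ℝ), p - ε • e ∈ hcone s := hcont hmem
    have hpos : ∀ᶠ ε in 𝓝[>] (0 : ℝ), (0 : ℝ) < ε := eventually_mem_nhdsWithin
    obtain ⟨ε, ⟨h0, h1, h2⟩, hε⟩ := (hev.and hpos).exists
    have hval : ∀ i : Fin (n + 1), (p - ε • e).1 i / (s i : ℝ) =
        p.1 i / (s i : ℝ) - ε * ((i : ℕ) + 1 : ℝ) := by
      intro i
      have hsi := (hspos i).ne'
      simp only [e, Prod.fst_sub, Prod.smul_fst, Pi.sub_apply, Pi.smul_apply, smul_eq_mul]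
      field_simp
    refine ⟨?_, ?_, ?_⟩
    · rw [hval] at h0
      have : ((0 : Fin (n + 1)) : ℕ) = 0 := rfl
      simp only [this] at h0
      push_cast at h0
      nlinarith
    · intro j
      have hj := h1 j
      rw [hval, hval] at hj
      have e1 : ((j.castSucc : Fin (n + 1)) : ℕ) = (j : ℕ) := rfl
      have e2 : ((j.succ : Fin (n + 1)) : ℕ) = (j : ℕ) + 1 := rfl
      rw [e1, e2] at hj
      push_cast at hj
      nlinarith
    · rw [hval] at h2
      have e1 : ((Fin.last n : Fin (n + 1)) : ℕ) = n := rfl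
      rw [e1] at h2
      have e2 : (p - ε • e).2 = p.2 - ε * ((n : ℝ) + 2) := by
        simp [e]
      rw [e2] at h2
      nlinarith
  · apply interior_maximal
    · rintro p ⟨h0, h1, h2⟩
      exact ⟨h0.le, fun j => (h1 j).le, h2.le⟩
    · have hset : hconeInt s = {p | 0 < p.1 0 / (s 0 : ℝ)} ∩
          ((⋂ j : Fin n, {p | p.1 j.castSucc / (s j.castSucc : ℝ) < p.1 j.succ / (s j.succ : ℝ)}) ∩
          {p | p.1 (Fin.last n) / (s (Fin.last n) : ℝ) < p.2}) := by
        ext p
        simp [hconeInt]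
      rw [hset]
      apply IsOpen.inter
      · exact isOpen_lt (by fun_prop) (by fun_prop)
      · apply IsOpen.inter
        · apply isOpen_iInter_of_finite
          intro j
          exact isOpen_lt (by fun_prop) (by fun_prop)
        · exact isOpen_lt (by fun_prop) (by fun_prop)

lemma lattice_mem_hcone {n : ℕ} (s : Fin (n + 1) → ℕ) (hs : ∀ i, 1 ≤ s i)
    (z : Fin (n + 1) → ℤ) (h : ℤ) :
    latticePoint z h ∈ hcone s ↔
      0 ≤ z 0 ∧ (∀ j : Fin n, z j.castSucc * (s j.succ : ℤ) ≤ z j.succ * (s j.castSucc : ℤ)) ∧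
      z (Fin.last n) ≤ h * (s (Fin.last n) : ℤ) := by
  have hspos : ∀ i, (0 : ℝ) < (s i : ℝ) := fun i => by
    have := hs i
    exact_mod_cast this
  unfold hcone latticePoint
  simp only [mem_ofPred_eq]
  refine and_congr ?_ (and_congr ?_ ?_)
  · rw [le_div_iff₀ (hspos 0), zero_mul]
    exact_mod_cast Iff.rfl
  · refine forall_congr' fun j => ?_
    rw [div_le_div_iff₀ (hspos _) (hspos _)]
    exact_mod_cast Iff.rfl
  · rw [div_le_iff₀ (hspos _)]
    exact_mod_cast Iff.rfl

lemma lattice_mem_hconeInt {n : ℕ} (s : Fin (n + 1) → ℕ) (hs : ∀ i, 1 ≤ s i)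
    (z : Fin (n + 1) → ℤ) (h : ℤ) :
    latticePoint z h ∈ hconeInt s ↔
      0 < z 0 ∧ (∀ j : Fin n, z j.castSucc * (s j.succ : ℤ) < z j.succ * (s j.castSucc : ℤ)) ∧
      z (Fin.last n) < h * (s (Fin.last n) : ℤ) := by
  have hspos : ∀ i, (0 : ℝ) < (s i : ℝ) := fun i => by
    have := hs i
    exact_mod_cast this
  unfold hconeInt latticePoint
  simp only [mem_ofPred_eq]
  refine and_congr ?_ (and_congr ?_ ?_)
  · rw [lt_div_iff₀ (hspos 0), zero_mul]
    exact_mod_cast Iff.rfl
  · refine forall_congr' fun j => ?_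
    rw [div_lt_div_iff₀ (hspos _) (hspos _)]
    exact_mod_cast Iff.rfl
  · rw [div_lt_iff₀ (hspos _)]
    exact_mod_cast Iff.rfl

/-- If `s` admits an integer vector `c` with `c_1 = 1` and
`c_j s_{j-1} = c_{j-1} s_j + gcd(s_{j-1}, s_j)` for all `j ≥ 2`, then the `s`-lecture hall simplex
is level. -/
theorem result {n : ℕ} (s : Fin (n + 1) → ℕ) (hs : ∀ i, 1 ≤ s i)
    (hc : ∃ c : Fin (n + 1) → ℤ, c 0 = 1 ∧
      ∀ j : Fin n, c j.succ * (s j.castSucc : ℤ) =
        c j.castSucc * (s j.succ : ℤ) + (Nat.gcd (s j.castSucc) (s j.succ) : ℤ)) :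
    IsLevel (lectureHallSimplex s) := by
  obtain ⟨c, hc0, hcj⟩ := hc
  have hspos : ∀ i, (0 : ℤ) < (s i : ℤ) := fun i => by
    have := hs i
    exact_mod_cast this
  have hint : interior (coneOver (lectureHallSimplex s)) = hconeInt s := by
    rw [coneOver_eq s hs, interior_hcone s hs]
  have hgpos : ∀ j : Fin n, (0 : ℤ) < (Nat.gcd (s j.castSucc) (s j.succ) : ℤ) := fun j => by
    have := Nat.gcd_pos_of_pos_left (s j.succ) (hs j.castSucc)
    exact_mod_cast this
  -- interior lattice points are `c + (cone)`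
  have key : ∀ (z : Fin (n + 1) → ℤ), 0 < z 0 →
      (∀ j : Fin n, z j.castSucc * (s j.succ : ℤ) < z j.succ * (s j.castSucc : ℤ)) →
      0 ≤ (z 0 - c 0) ∧ ∀ j : Fin n, (z j.castSucc - c j.castSucc) * (s j.succ : ℤ) ≤
        (z j.succ - c j.succ) * (s j.castSucc : ℤ) := by
    intro z hz0 hz
    refine ⟨by omega, fun j => ?_⟩
    have h1 := hz j
    have hd1 : (Nat.gcd (s j.castSucc) (s j.succ) : ℤ) ∣ (s j.castSucc : ℤ) :=
      Int.natCast_dvd_natCast.2 (Nat.gcd_dvd_left _ _)
    have hd2 : (Nat.gcd (s j.castSucc) (s j.succ) : ℤ) ∣ (s j.succ : ℤ) :=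
      Int.natCast_dvd_natCast.2 (Nat.gcd_dvd_right _ _)
    have hd : (Nat.gcd (s j.castSucc) (s j.succ) : ℤ) ∣
        z j.succ * (s j.castSucc : ℤ) - z j.castSucc * (s j.succ : ℤ) :=
      dvd_sub (Dvd.dvd.mul_left hd1 _) (Dvd.dvd.mul_left hd2 _)
    have h2 := Int.le_of_dvd (by linarith) hd
    have h3 := hcj j
    linarith [sub_mul (z j.castSucc) (c j.castSucc) (s j.succ : ℤ),
      sub_mul (z j.succ) (c j.succ) (s j.castSucc : ℤ)]
  -- integer chain facts
  have chain0 : ∀ y : Fin (n + 1) → ℤ, 0 ≤ y 0 →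
      (∀ j : Fin n, y j.castSucc * (s j.succ : ℤ) ≤ y j.succ * (s j.castSucc : ℤ)) →
      ∀ i, 0 ≤ y i := by
    intro y h0 h i
    induction i using Fin.induction with
    | zero => exact h0
    | succ j ih =>
      have h1 := h j
      have h2 : 0 ≤ y j.castSucc * (s j.succ : ℤ) := mul_nonneg ih (hspos _).le
      have h3 : 0 ≤ y j.succ * (s j.castSucc : ℤ) := le_trans h2 h1
      exact nonneg_of_mul_nonneg_left h3 (hspos _)
  set L := Fin.last n with hL
  set d₀ : ℤ := c L / (s L : ℤ) + 1 with hd₀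
  have hd1 : c L < d₀ * (s L : ℤ) := by
    have h1 := Int.emod_add_mul_ediv (c L) (s L : ℤ)
    have h2 := Int.emod_lt_of_pos (c L) (hspos L)
    rw [hd₀]
    nlinarith
  have hd2 : (d₀ - 1) * (s L : ℤ) ≤ c L := by
    have h1 := Int.emod_add_mul_ediv (c L) (s L : ℤ)
    have h2 := Int.emod_nonneg (c L) (hspos L).ne'
    rw [hd₀]
    nlinarith
  have hcint : latticePoint c d₀ ∈ hconeInt s := by
    rw [lattice_mem_hconeInt s hs]
    refine ⟨by omega, fun j => ?_, hd1⟩
    have := hcj j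
    have := hgpos j
    linarith
  refine ⟨d₀, ⟨⟨c, by rw [hint]; exact hcint⟩, ?_⟩, ?_⟩
  · rintro h ⟨z, hz⟩
    rw [hint, lattice_mem_hconeInt s hs] at hz
    obtain ⟨hz0, hz1, hz2⟩ := hz
    obtain ⟨hy0, hy1⟩ := key z hz0 hz1
    have hyL := chain0 (fun i => z i - c i) hy0 hy1 L
    have h1 : (d₀ - 1) * (s L : ℤ) < h * (s L : ℤ) := by linarith
    have h2 := lt_of_mul_lt_mul_right h1 (hspos L).le
    omega
  · intro z h hz
    rw [hint, lattice_mem_hconeInt s hs] at hz
    obtain ⟨hz0, hz1, hz2⟩ := hz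
    obtain ⟨hy0, hy1⟩ := key z hz0 hz1
    have hyL := chain0 (fun i => z i - c i) hy0 hy1 L
    have hh : d₀ ≤ h := by
      have h1 : (d₀ - 1) * (s L : ℤ) < h * (s L : ℤ) := by linarith
      have h2 := lt_of_mul_lt_mul_right h1 (hspos L).le
      omega
    set m : ℤ := h - d₀ with hm
    have hm0 : 0 ≤ m := by omega
    -- the truncation splitting
    let v : Fin (n + 1) → ℤ := fun i => min (z i - c i) (m * (s i : ℤ))
    let y' : Fin (n + 1) → ℤ := fun i => max (z i - c i - m * (s i : ℤ)) 0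
    have hsplit : ∀ i, v i + y' i = z i - c i := by
      intro i
      simp only [v, y']
      rcases le_total (z i - c i) (m * (s i : ℤ)) with h1 | h1
      · rw [min_eq_left h1, max_eq_right (by linarith)]
        ring
      · rw [min_eq_right h1, max_eq_left (by linarith)]
        ring
    refine ⟨fun i => c i + y' i, v, m, ?_, ?_, ?_⟩
    · rw [hint, lattice_mem_hconeInt s hs]
      refine ⟨?_, fun j => ?_, ?_⟩
      · have : 0 ≤ y' 0 := le_max_right _ _
        omega
      · have h1 := hcj j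
        have h2 := hgpos j
        have h3 : y' j.castSucc * (s j.succ : ℤ) ≤ y' j.succ * (s j.castSucc : ℤ) := by
          simp only [y']
          rw [max_mul_of_nonneg _ _ (hspos _).le, max_mul_of_nonneg _ _ (hspos _).le]
          apply max_le_max
          · have := hy1 j
            nlinarith
          · simp
        nlinarith
      · rcases le_total (z L - c L - m * (s L : ℤ)) 0 with h1 | h1
        · have : y' L = 0 := max_eq_right h1
          rw [this]
          linarith
        · have : y' L = z L - c L - m * (s L : ℤ) := max_eq_left h1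
          rw [this, hm]
          nlinarith
    · rw [coneOver_eq s hs, lattice_mem_hcone s hs]
      refine ⟨?_, fun j => ?_, ?_⟩
      · exact le_min hy0 (mul_nonneg hm0 (hspos 0).le)
      · simp only [v]
        rw [min_mul_of_nonneg _ _ (hspos _).le, min_mul_of_nonneg _ _ (hspos _).le]
        apply min_le_min
        · exact hy1 j
        · apply le_of_eq
          ring
      · exact min_le_right _ _
    · unfold latticePoint
      ext i
      · simp only [Prod.fst_add, Pi.add_apply]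
        have := hsplit i
        have h2 : z i = c i + y' i + v i := by omega
        rw [h2]
        push_cast
        ring
      · simp only [Prod.snd_add]
        rw [hm]
        push_cast
        ring

end Pool.Agent.Results.MP_aff17b_co.LectureHallLevel
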